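import Mathlib

/-! Project MO (MP_0631c5_co): positive square energy of maximal outerplanar graphs. Definitions. -/

open Complex

namespace Pool.Agent.MO

/-! ## Phases of accretive matrices, indexed by finite sets of natural numbers -/

/-- the submatrix of `F` on `S` -/
noncomputable def mS (F : ℕ → ℕ → ℂ) (S : Finset ℕ) : Matrix S S ℂ := Matrix.of fun x y => F x.1 y.1

noncomputable def detS (F : ℕ → ℕ → ℂ) (S : Finset ℕ) : ℂ := (mS F S).det

/-- the phase: sum of the arguments of the eigenvalues (with multiplicity) -/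
noncomputable def phS (F : ℕ → ℕ → ℂ) (S : Finset ℕ) : ℝ :=
  ((mS F S).charpoly.roots.map Complex.arg).sum

/-- accretive on `S`: `Re x^* F x > 0` for every `x` which is not zero on `S` -/
def AccS (F : ℕ → ℕ → ℂ) (S : Finset ℕ) : Prop :=
  ∀ x : ℕ → ℂ, (∃ i ∈ S, x i ≠ 0) →
    0 < (∑ i ∈ S, ∑ j ∈ S, (starRingEnd ℂ) (x i) * F i j * x j).re

/-- Schur complement: elimination of the index `k` -/
noncomputable def sch (F : ℕ → ℕ → ℂ) (k : ℕ) : ℕ → ℕ → ℂ :=
  fun x y => F x y - F x k * F k y / F k k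

/-- `F` with `z` added to the diagonal entry at `k` -/
noncomputable def addk (F : ℕ → ℕ → ℂ) (k : ℕ) (z : ℂ) : ℕ → ℕ → ℂ :=
  fun x y => F x y + if x = k ∧ y = k then z else 0

/-- `(1-s) F + s G` -/
noncomputable def mix (F G : ℕ → ℕ → ℂ) (s : ℝ) : ℕ → ℕ → ℂ :=
  fun x y => (1 - (s : ℂ)) * F x y + (s : ℂ) * G x y

/-- `diag(w) - i A` -/
noncomputable def MT (w : ℕ → ℝ) (A : ℕ → ℕ → ℝ) : ℕ → ℕ → ℂ :=
  fun x y => (if x = y then (w x : ℂ) else 0) - I * (A x y : ℂ)

/-- phase change bound -/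
noncomputable def chi (x y : ℝ) : ℝ := Real.pi / 2 - 2 * Real.arctan (Real.sqrt (min x y / max x y))

/-- eigenvalues (with multiplicity) of the real matrix `(A i j)_{i,j<n}` -/
noncomputable def evA (A : ℕ → ℕ → ℝ) (n : ℕ) : Multiset ℝ :=
  (Matrix.of (fun i j : Fin n => A i.1 j.1)).charpoly.roots

/-! ## Trees -/

inductive Tr : Type
  | e : Tr
  | nd : Tr → Tr → Tr
  deriving DecidableEq

/-- number of nodes -/
def Tr.sz : Tr → ℕ
  | .e => 0
  | .nd l r => l.sz + r.sz + 1

/-- length of the left spine = number of nodes adjacent to the left port -/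
def Tr.ls : Tr → ℕ
  | .e => 0
  | .nd l _ => l.ls + 1

/-- length of the right spine = number of nodes adjacent to the right port -/
def Tr.rs : Tr → ℕ
  | .e => 0
  | .nd _ r => r.rs + 1

/-- number of children of the root node -/
def Tr.cnt : Tr → ℕ
  | .e => 0
  | .nd l r => l.rs + r.ls

/-- adjacency of the branch `t` placed on the interval `[i, i + sz + 1]` (without the edge between the two ports) -/
noncomputable def AT : Tr → ℕ → ℕ → ℕ → ℝ
  | .e, _, _, _ => 0
  | .nd l r, i, x, y =>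
    (if (x = i ∧ y = i + l.sz + 1) ∨ (x = i + l.sz + 1 ∧ y = i) ∨
        (x = i + l.sz + 1 ∧ y = i + l.sz + 1 + r.sz + 1) ∨ (x = i + l.sz + 1 + r.sz + 1 ∧ y = i + l.sz + 1)
      then 1 else 0) + AT l i x y + AT r (i + l.sz + 1) x y

/-- adjacency matrix of the triangulated polygon of the tree `t` on the vertices `0, ..., sz + 1` -/
noncomputable def AG (t : Tr) (x y : ℕ) : ℝ :=
  (if (x = 0 ∧ y = t.sz + 1) ∨ (x = t.sz + 1 ∧ y = 0) then 1 else 0) + AT t 0 x y

/-- weighted trees; `none` = deleted vertex -/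
inductive WT : Type
  | e : WT
  | nd : Option ℝ → WT → WT → WT

structure BD where
  psi : ℝ
  al : ℂ
  be : ℂ
  mu : ℂ

/-- the pivot, the phase and the Schur complement of a branch -/
noncomputable def pv (T : ℝ) (L R : BD) : ℂ := (T : ℂ) + L.be + R.al

noncomputable def comb (T : ℝ) (L R : BD) : BD :=
  ⟨L.psi + R.psi + Complex.arg (pv T L R), L.al - (L.mu - I) ^ 2 / pv T L R,
    R.be - (R.mu - I) ^ 2 / pv T L R, -((L.mu - I) * (R.mu - I)) / pv T L R⟩

noncomputable def bd : WT → BD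
  | .e => ⟨0, 0, 0, 0⟩
  | .nd none l r => ⟨(bd l).psi + (bd r).psi, (bd l).al, (bd r).be, 0⟩
  | .nd (some T) l r => comb T (bd l) (bd r)

noncomputable def ph2 (A B m : ℂ) : ℝ := Complex.arg A + Complex.arg (B - m ^ 2 / A)

noncomputable def ph3 (A B C x y z : ℂ) : ℝ :=
  Complex.arg A + ph2 (B - x ^ 2 / A) (C - y ^ 2 / A) (z - x * y / A)

/-- phase of the whole structure: ports with weights `a`, `b` (`none` = deleted), joined by an edge -/
noncomputable def phiW : Option ℝ → Option ℝ → WT → ℝ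
  | some a, some b, t => (bd t).psi + ph2 (a + (bd t).al) (b + (bd t).be) ((bd t).mu - I)
  | some a, none, t => (bd t).psi + Complex.arg (a + (bd t).al)
  | none, some b, t => (bd t).psi + Complex.arg (b + (bd t).be)
  | none, none, t => (bd t).psi

/-- the tree `t` at position `i` with weights given by the positions -/
noncomputable def wt (w : ℕ → ℝ) : Tr → ℕ → WT
  | .e, _ => .e
  | .nd l r, i => .nd (some (w (i + l.sz + 1))) (wt w l i) (wt w r (i + l.sz + 1))

/-- uniform weights -/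
noncomputable def uni (t : ℝ) : Tr → WT
  | .e => .e
  | .nd l r => .nd (some t) (uni t l) (uni t r)

/-- all weights positive -/
def PosW : WT → Prop
  | .e => True
  | .nd none l r => PosW l ∧ PosW r
  | .nd (some T) l r => 0 < T ∧ PosW l ∧ PosW r

/-- no deleted vertex -/
def Full : WT → Prop
  | .e => True
  | .nd none _ _ => False
  | .nd (some _) l r => Full l ∧ Full r

/-- replace the deleted vertices by vertices with weight `R` -/
noncomputable def fill (R : ℝ) : WT → WT
  | .e => .e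
  | .nd o l r => .nd (some (o.getD R)) (fill R l) (fill R r)

/-- `Dom lt t`: same shape, same deleted vertices, weights at least the labels -/
def Dom : WT → WT → Prop
  | .e, .e => True
  | .nd none l r, .nd none l' r' => Dom l l' ∧ Dom r r'
  | .nd (some a) l r, .nd (some b) l' r' => a ≤ b ∧ Dom l l' ∧ Dom r r'
  | _, _ => False

/-- root label of a live root -/
def rootL : WT → Option ℝ
  | .nd (some a) _ _ => some a
  | _ => none

/-- the requirement on labels (`la`, `lb`: are the ports alive?): labels in `(0,1]`, and if a live node with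
live ports has two live children then both children have label `1` -/
def ReqL : Bool → Bool → WT → Prop
  | _, _, .e => True
  | la, lb, .nd none l r => ReqL la false l ∧ ReqL false lb r
  | la, lb, .nd (some a) l r => 0 < a ∧ a ≤ 1 ∧ ReqL la true l ∧ ReqL true lb r ∧
      (la = true → lb = true → ∀ x y : ℝ, rootL l = some x → rootL r = some y → x = 1 ∧ y = 1)

/-! ## states (environments with two ports) -/

structure St where
  ph : ℝ
  A : ℂ
  B : ℂ
  m : ℂ

def Acc2 (A B m : ℂ) : Prop := 0 < A.re ∧ 0 < B.re ∧ m.re ^ 2 < A.re * B.re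

def Psd2 (A B m : ℂ) : Prop := 0 ≤ A.re ∧ 0 ≤ B.re ∧ m.re ^ 2 ≤ A.re * B.re

def Good1 (ph : ℝ) (A : ℂ) : Prop := ∀ p : ℝ, 0 ≤ p → 0 ≤ ph + Complex.arg (A + p)

def Good2 (ph : ℝ) (A B m : ℂ) : Prop :=
  ∀ p q : ℝ, 0 ≤ p → 0 ≤ q → 0 ≤ ph + ph2 (A + p) (B + q) m

def Good3 (ph : ℝ) (A B m : ℂ) (T : ℝ) : Prop :=
  ∀ p q T' : ℝ, 0 ≤ p → 0 ≤ q → T ≤ T' → 0 ≤ ph + ph3 (A + p) (B + q) T' m (-I) (-I)

noncomputable def tot (s : St) (t : WT) : ℝ :=
  s.ph + (bd t).psi + ph2 (s.A + (bd t).al) (s.B + (bd t).be) (s.m + (bd t).mu)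

/-- the environment `s` is good for a tree with label tree `lt` -/
def Ok (s : St) (lt : WT) : Prop :=
  Acc2 s.A s.B s.m ∧ Good2 s.ph s.A s.B s.m ∧
    ∀ a : ℝ, rootL lt = some a → Good2 s.ph s.A s.B (s.m + I) ∧ Good3 s.ph s.A s.B s.m a

/-- the general small matrix on the indices `0,1` (ports a, b), `2` (c), `3` (u), `4` (w) -/
def G5 (A B C U W ab ac bc au cu bw cw : ℂ) : ℕ → ℕ → ℂ
  | 0, 0 => A
  | 1, 1 => B
  | 2, 2 => C
  | 3, 3 => U
  | 4, 4 => W
  | 0, 1 => ab
  | 1, 0 => ab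
  | 0, 2 => ac
  | 2, 0 => ac
  | 1, 2 => bc
  | 2, 1 => bc
  | 0, 3 => au
  | 3, 0 => au
  | 2, 3 => cu
  | 3, 2 => cu
  | 1, 4 => bw
  | 4, 1 => bw
  | 2, 4 => cw
  | 4, 2 => cw
  | _, _ => 0

/-- new environments at the ports (a, c) -/
noncomputable def s1 (s : St) (p q T : ℝ) : St :=
  ⟨s.ph + Complex.arg (s.B + q), s.A + p - s.m ^ 2 / (s.B + q), T + 1 / (s.B + q), -I + I * s.m / (s.B + q)⟩

noncomputable def s1e (s : St) (p q T : ℝ) : St :=
  ⟨s.ph + Complex.arg (s.B + q), s.A + p - s.m ^ 2 / (s.B + q), T, -I⟩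

/-- (a, c) with `b` and the test ear `w` (weight `W`) on `cb` eliminated -/
noncomputable def s1w (s : St) (p q T W : ℝ) : St :=
  ⟨s.ph + Complex.arg (s.B + q) + Complex.arg (W + 1 / (s.B + q)),
    s.A + p - s.m ^ 2 / (s.B + q) - (I * s.m / (s.B + q)) ^ 2 / (W + 1 / (s.B + q)),
    T + 1 / (s.B + q) - (-I + 1 / (s.B + q)) ^ 2 / (W + 1 / (s.B + q)),
    -I + I * s.m / (s.B + q) - (I * s.m / (s.B + q)) * (-I + 1 / (s.B + q)) / (W + 1 / (s.B + q))⟩

/-- new environment at the ports (c, b) after the branch `L` has been attached at (a, c) -/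
noncomputable def s2 (s : St) (L : BD) (p q T : ℝ) : St :=
  ⟨s.ph + L.psi + Complex.arg (s.A + p + L.al),
    T + L.be - (L.mu - I) ^ 2 / (s.A + p + L.al),
    s.B + q - s.m ^ 2 / (s.A + p + L.al),
    -I - s.m * (L.mu - I) / (s.A + p + L.al)⟩

/-! ## large n -/

/-- `1 / (t + K m / t)`, `K = 1.053` -/
noncomputable def iT (t : ℝ) (m : ℕ) : ℝ := t / (t ^ 2 + 1.053 * m)

/-- the triangle sum -/
noncomputable def ZT (t : ℝ) : Tr → ℕ → ℕ → ℝ
  | .e, _, _ => 0
  | .nd l r, ma, mb =>
    2 * iT t (l.rs + r.ls) * iT t ma * iT t mb + ZT t l ma (l.rs + r.ls) + ZT t r (l.rs + r.ls) mb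

/-- explicit lower bound of `(4/π) ∫_{10}^∞ 0.83 * 2 t^4/(t^2 + 1.053 m)^3 dt` -/
noncomputable def gg (m : ℕ) : ℝ :=
  0.83 / Real.pi * (3 / Real.sqrt (100 + 1.053 * m) + 10 * (500 + 3.159 * m) / (100 + 1.053 * m) ^ 2)

noncomputable def GS : Tr → ℕ → ℕ → ℝ
  | .e, _, _ => 0
  | .nd l r, ma, mb =>
    gg (max (l.rs + r.ls) (max ma mb)) + GS l ma (l.rs + r.ls) + GS r (l.rs + r.ls) mb

/-- is the node `nd l r` with port counts `ma`, `mb` a lossy branching node? -/
def lossy (l r : Tr) (ma mb : ℕ) : Bool :=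
  decide (ma < 13) && decide (mb < 13) && decide (l.rs + r.ls < 13) && decide (l ≠ Tr.e) && decide (r ≠ Tr.e)
    && decide (l.cnt < 13) && decide (r.cnt < 13)

/-- labels for `t < 1`: hubs (count at least 13) deleted, children of lossy nodes get label 1, others `t` -/
noncomputable def lab (t : ℝ) : Tr → ℕ → ℕ → Bool → WT
  | .e, _, _, _ => .e
  | .nd l r, ma, mb, x =>
    .nd (if 13 ≤ l.rs + r.ls then none else some (if x then 1 else t))
      (lab t l ma (l.rs + r.ls) (lossy l r ma mb)) (lab t r (l.rs + r.ls) mb (lossy l r ma mb))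

/-- number of nodes with label 1 -/
def xc : Tr → ℕ → ℕ → Bool → ℕ
  | .e, _, _, _ => 0
  | .nd l r, ma, mb, x =>
    (if x then 1 else 0) + xc l ma (l.rs + r.ls) (lossy l r ma mb) + xc r (l.rs + r.ls) mb (lossy l r ma mb)

/-- number of hub nodes -/
def hc : Tr → ℕ
  | .e => 0
  | .nd l r => (if 13 ≤ l.rs + r.ls then 1 else 0) + hc l + hc r

/-- total number of hubs, the two ports included (counts `ls t` and `rs t + 1`) -/
def hT (t : Tr) : ℕ := hc t + (if 13 ≤ t.ls then 1 else 0) + (if 13 ≤ t.rs + 1 then 1 else 0)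

/-- number of low triangles -/
def lowc : Tr → ℕ → ℕ → ℕ
  | .e, _, _ => 0
  | .nd l r, ma, mb =>
    (if ma < 13 ∧ mb < 13 ∧ l.rs + r.ls < 13 then 1 else 0) + lowc l ma (l.rs + r.ls) + lowc r (l.rs + r.ls) mb

/-- the phase function of the graph as a function of `t` -/
noncomputable def Phi (L : Multiset ℝ) (t : ℝ) : ℝ := -(L.map fun x => Real.arctan (x / t)).sum

noncomputable def DD (L : Multiset ℝ) : ℝ := (L.map fun x => x * |x|).sum

/-! ## the problem -/

/-- outerplanar: the vertices can be placed on a circle such that no two edges cross -/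
def Outerplanar {V : Type} [Fintype V] (G : SimpleGraph V) : Prop :=
  ∃ s : V ≃ Fin (Fintype.card V), ∀ a b c d : V, s a < s b → s b < s c → s c < s d →
    ¬ (G.Adj a c ∧ G.Adj b d)

def MaximalOuterplanar {V : Type} [Fintype V] (G : SimpleGraph V) : Prop :=
  Outerplanar G ∧ ∀ H : SimpleGraph V, G ≤ H → Outerplanar H → H = G

open Classical in
/-- the positive square energy -/
noncomputable def splus {V : Type} [Fintype V] (G : SimpleGraph V) : ℝ :=
  ∑ i, if 0 < (show (G.adjMatrix ℝ).IsHermitian from by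
      rw [Matrix.IsHermitian, Matrix.conjTranspose_eq_transpose_of_trivial]; exact G.isSymm_adjMatrix).eigenvalues i
    then (show (G.adjMatrix ℝ).IsHermitian from by
      rw [Matrix.IsHermitian, Matrix.conjTranspose_eq_transpose_of_trivial]; exact G.isSymm_adjMatrix).eigenvalues i ^ 2
    else 0

end Pool.Agent.MO
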