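import Pool.Agent.helper34.MO.SML
import Pool.Agent.helper1.MO.LAB
import Pool.Agent.helper1.MO.LIM
import Pool.Agent.helper1.MO.STR
import Pool.Agent.helper1.MO.VA
import Pool.Agent.helper18.MO.PHS
import Pool.Agent.helper20.MO.LNK
import Pool.Agent.helper23.MO.CBX
import Pool.Agent.helper23.MO.DELN
import Pool.Agent.helper29.MO.SCP
import Pool.Agent.helper31.MO.LAM
import Pool.Agent.helper31.MO.NODE
import Pool.Agent.helper32.MO.DLO
import Pool.Agent.helper32.MO.LT1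
import Pool.Agent.helper39.MO.LOC
import Pool.Agent.helper39.MO.N8
import Pool.Agent.helper41.MO.S3
import Pool.Agent.helper42.MO.SEC
import Pool.Agent.helper44.MO.GGM
import Pool.Agent.helper44.MO.TW4
import Pool.Agent.helper45.MO.TDI
import Pool.Agent.helper47.MO.TDF
import Pool.Agent.helper48.MO.EVK
import Pool.Agent.helper49.MO.CHI
import Pool.Agent.helper5.MO.GE1
import Pool.Agent.helper5.MO.INTF
import Pool.Agent.helper5.MO.N4
import Pool.Agent.helper5.MO.N5
import Pool.Agent.helper5.MO.PHP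
import Pool.Agent.helper5.MO.TR2
import Pool.Agent.helper50.MO.DID
import Pool.Agent.helper50.MO.N1
import Pool.Agent.helper50.MO.N2
import Pool.Agent.helper52.MO.RPF
import Pool.Agent.helper53.MO.LMK
import Pool.Agent.helper53.MO.MOD
import Pool.Agent.helper54.MO.TR4
import Pool.Agent.helper55.MO.PHG
import Pool.Agent.helper55.MO.TCH
import Pool.Agent.helper56.MO.ACM
import Pool.Agent.helper56.MO.CB2
import Pool.Agent.helper56.MO.TR3
import Pool.Agent.helper59.MO.S1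
import Pool.Agent.helper59.MO.S2
import Pool.Agent.helper59.MO.S4
import Pool.Agent.helper64.MO.G2M
import Pool.Agent.helper68.MO.CB3
import Pool.Agent.helper71.MO.SEG
import Pool.Agent.helper72.MO.PIT
import Pool.Agent.helper73.MO.EV
import Pool.Agent.helper73.MO.PHC
import Pool.Agent.helper73.MO.PHD
import Pool.Agent.helper73.MO.PHE
import Pool.Agent.helper74.MO.N3
import Pool.Agent.helper78.MO.SPL
import Pool.Agent.helper79.MO.A2P
import Pool.Agent.helper8.MO.RSB
import Pool.Agent.helper80.MO.ACG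
import Pool.Agent.helper80.MO.ACT
import Pool.Agent.helper80.MO.ATS
import Pool.Agent.helper80.MO.EX2
import Pool.Agent.helper80.MO.G2D
import Pool.Agent.helper80.MO.IN1
import Pool.Agent.helper82.MO.XAB
import Pool.Agent.helper83.MO.S5
import Pool.Agent.helper85.MO.TCW
import Pool.Agent.helper89.MO.GGF
import Pool.Agent.helper89.MO.IGG
import Pool.Agent.helper89.MO.LKU
import Pool.Agent.helper9.MO.PHH
import Pool.Agent.helper92.MO.INV0
import Pool.Agent.helper92.MO.NODV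
import Pool.Agent.helper93.MO.IZT
import Pool.Agent.helper93.MO.LRG
import Pool.Agent.helper97.MO.CBF
import Pool.Agent.helper97.MO.INV
import Pool.Agent.helper98.MO.S5a

/-! Project MO (MP_0631c5_co): assembly of the full answer. -/

namespace Pool.Agent.MO
theorem main : FIN_stmt := by
  have hPHD : PHD_stmt := PHD
  have hPHE : PHE_stmt := PHE
  have hPHP : PHP_stmt := PHP hPHD hPHE
  have hPHS : PHS_stmt := PHS hPHE hPHP
  have hPHC : PHC_stmt := PHC hPHE hPHP
  have hSEG : SEG_stmt := SEG hPHD hPHC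
  have hMOD : MOD_stmt := MOD hPHE hPHP
  have hLMK : LMK_stmt := LMK hPHE hPHP hMOD
  have hACM : ACM_stmt := ACM
  have hCHI : CHI_stmt := CHI
  have hTCH : TCH_stmt := TCH hPHE hPHP hACM hCHI
  have hPHH : PHH_stmt := PHH
  have hEV : EV_stmt := EV hPHE hPHS
  have hA2P : A2P_stmt := A2P
  have hACT : ACT_stmt := ACT
  have hACG : ACG_stmt := ACG
  have hEX2 : EX2_stmt := EX2 hEV hA2P hPHS
  have hG2D : G2D_stmt := G2D hEX2
  have hG2M : G2M_stmt := G2M hMOD hEV hA2P hEX2 hG2D hPHE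
  have hS1 : S1_stmt := S1 hPHS hEV hACG hA2P hPHE
  have hS2 : S2_stmt := S2 hPHS hEV hACG hA2P hPHE hG2M
  have hS3 : S3_stmt := S3 hSEG hPHP hPHS hPHE hEV hACG hA2P hEX2 hG2M
  have hS4 : S4_stmt := S4 hPHS hEV hACG hA2P hPHE
  have hXAB : XAB_stmt := XAB hPHS hPHE hACG
  have hDID : DID_stmt := DID
  have hS5a : S5a_stmt := S5a hPHD hPHP hPHS hPHE hEV hACG hA2P hEX2 hG2D hG2M hS1 hS3 hS4 hXAB hDID
  have hS5 : S5_stmt := S5 hMOD hPHE hEV hACG hA2P hS3 hS4 hS5a
  have hN1 : N1_stmt := N1 hPHS hPHE hEV hA2P hACG hS1 hS3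
  have hN2 : N2_stmt := N2 hPHS hPHE hEV hA2P hACG hS1 hS2
  have hN3 : N3_stmt := N3 hPHS hPHE hEV hA2P hACG hS2 hS3 hS5
  have hN4 : N4_stmt := N4 hPHS hPHE hEV hA2P hACG
  have hN5 : N5_stmt := N5 hPHS hPHE hEV hA2P hACG
  have hNODE : NODE_stmt := NODE hACT hA2P hN1 hN2 hN3 hN4 hN5
  have hVA : VA_stmt := VA hPHS hPHE hEV hA2P hACG hEX2 hG2D
  have hNODV : NODV_stmt := NODV hACT hA2P hEX2 hVA
  have hDELN : DELN_stmt := DELN hACT hA2P hEX2
  have hRPF : RPF_stmt := RPF hA2P hACT hNODE hVA hNODV hDELN hG2D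
  have hATS : ATS_stmt := ATS
  have hLNK : LNK_stmt := LNK hPHE hPHS hEV hACM hATS
  have hLKU : LKU_stmt := LKU hPHH hLNK hATS
  have hTCW : TCW_stmt := TCW hPHE hCHI hTCH hLNK hATS
  have hLIM : LIM_stmt := LIM hACT
  have hLAB : LAB_stmt := LAB hCHI
  have hLT1 : LT1_stmt := LT1 hCHI hRPF hLIM hTCW hLAB
  have hGE1 : GE1_stmt := GE1 hRPF
  have hSEC : SEC_stmt := SEC
  have hSCP : SCP_stmt := SCP hSEC
  have hINV0 : INV0_stmt := INV0
  have hINV : INV_stmt := INV hINV0 hSCP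
  have hLOC : LOC_stmt := LOC
  have hTDI : TDI_stmt := TDI hLOC hINV hSCP
  have hTDF : TDF_stmt := TDF hTDI hINV hSCP hINV0
  have hINTF : INTF_stmt := INTF
  have hPIT : PIT_stmt := PIT
  have hIN1 : IN1_stmt := IN1
  have hIGG : IGG_stmt := IGG
  have hIZT : IZT_stmt := IZT hIGG
  have hDLO : DLO_stmt := DLO hINTF hPIT hIN1 hIZT
  have hGGM : GGM_stmt := GGM
  have hGGF : GGF_stmt := GGF hGGM
  have hCBX : CBX_stmt := CBX
  have hCB2 : CB2_stmt := CB2
  have hCB3 : CB3_stmt := CB3 hGGM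
  have hCBF : CBF_stmt := CBF hGGM hGGF hCBX hCB2 hCB3
  have hEVK : EVK_stmt := EVK
  have hLRG : LRG_stmt := LRG hEVK hATS hLKU hLT1 hGE1 hTDF hDLO hCBF
  have hTR2 : TR2_stmt := TR2 hATS
  have hTR3 : TR3_stmt := TR3 hATS
  have hTR4 : TR4_stmt := TR4 hATS
  have hTW4 : TW4_stmt := TW4
  have hRSB : RSB_stmt := RSB hATS
  have hLAM : LAM_stmt := LAM hATS hRSB
  have hPHG : PHG_stmt := PHG hLKU hGE1
  have hSTR : STR_stmt := STR hATS
  have hSPL : SPL_stmt := SPL hEVK hTR2 hATS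
  have hN8 : N8_stmt := N8
  have hSML : SML_stmt := SML hEVK hTR2 hTR3 hTR4 hTW4 hLAM hPHG hATS
  exact FIN hSTR hSPL hN8 hSML hLRG

end Pool.Agent.MO
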