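import Pool.Agent.helper34.MO.SpecD
import Pool.Agent.helper39.SQE.Small

/-! Project MO: `9 ≤ n ≤ 178` from the certificates, and the final assembly. -/

open Finset

namespace Pool.Agent.MO

theorem SML (hEVK : EVK_stmt) (hTR2 : TR2_stmt) (hTR3 : TR3_stmt) (hTR4 : TR4_stmt) (hTW4 : TW4_stmt)
    (hLAM : LAM_stmt) (hPHG : PHG_stmt) (hATS : ATS_stmt) : SML_stmt := by
  intro τ h7 h176
  obtain ⟨hc, hs1, hs2, hs3, hs4⟩ := hEVK (AG τ) (τ.sz + 2) (fun x y => (hATS.2 τ x y).1)
  set L := evA (AG τ) (τ.sz + 2) with hL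
  have hdiag : ∑ i ∈ range (τ.sz + 2), AG τ i i = 0 := Finset.sum_eq_zero (fun i _ => (hATS.2 τ i i).2.2.1)
  rw [hdiag] at hs1
  rw [hTR2 τ] at hs2
  rw [hTR3 τ] at hs3
  rw [hTR4 τ] at hs4
  have hw4 : (w4 τ : ℝ) ≤ 2 * ((τ.sz : ℝ) + 2) ^ 2 + 18 * ((τ.sz : ℝ) + 2) - 54 := by
    exact_mod_cast hTW4 τ (by omega)
  have hlam := hLAM τ (by omega)
  rw [← hL] at hlam
  have hp1 := hPHG τ 1 le_rfl
  have hp2 := hPHG τ 2 (by norm_num)
  rw [← hL] at hp1 hp2
  obtain ⟨l, hl⟩ : ∃ l : List ℝ, (l : Multiset ℝ) = L := ⟨L.toList, Multiset.coe_toList L⟩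
  have hcl : Fintype.card (Fin l.length) = τ.sz + 2 := by
    rw [Fintype.card_fin, ← hc, ← hl, Multiset.coe_card]
  have key : ∀ f : ℝ → ℝ, ∑ i : Fin l.length, f l[i.1] = (L.map f).sum := by
    intro f
    rw [← hl, Multiset.map_coe, Multiset.sum_coe]
    exact Fin.sum_univ_fun_getElem l f
  have hmem : ∀ i : Fin l.length, l[i.1] ∈ L := by
    intro i
    rw [← hl]
    exact Multiset.mem_coe.mpr (List.getElem_mem i.2)
  have hres := Pool.Agent.SQE.small (ι := Fin l.length) (τ.sz + 2) (by omega) (by omega) hcl (fun i => l[i.1])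
    (by
      have := key (fun x => x)
      rw [this, Multiset.map_id', hs1])
    (by
      have := key (fun x => x ^ 2)
      rw [this, hs2]; push_cast; ring)
    (by
      have := key (fun x => x ^ 3)
      rw [this, hs3]; push_cast; ring)
    (by
      have := key (fun x => x ^ 4)
      rw [this, hs4]; push_cast; linarith)
    (fun i => by
      have h := hlam _ (hmem i)
      push_cast
      have h9 : (7 : ℝ) ≤ τ.sz := by exact_mod_cast h7
      have hsq : Real.sqrt ((τ.sz : ℝ) + 2 - 7 / 4) ^ 2 = (τ.sz : ℝ) + 2 - 7 / 4 := Real.sq_sqrt (by linarith)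
      have hs0 := Real.sqrt_nonneg ((τ.sz : ℝ) + 2 - 7 / 4)
      have ha : |l[i.1]| ^ 2 = l[i.1] ^ 2 := sq_abs _
      by_contra hcon
      push Not at hcon
      nlinarith [abs_nonneg l[i.1]])
    (by
      have := key (fun x => Real.arctan (x / 1))
      rw [this]
      unfold Phi at hp1
      linarith)
    (by
      have := key (fun x => Real.arctan (x / 2))
      rw [this]
      unfold Phi at hp2
      linarith)
  have := key (fun x => x * |x|)
  rw [this] at hres
  exact hres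

theorem FIN (hSTR : STR_stmt) (hSPL : SPL_stmt) (hN8 : N8_stmt) (hSML : SML_stmt) (hLRG : LRG_stmt) : FIN_stmt := by
  intro V _ G hG hn
  obtain ⟨τ, s, hsz, hadj⟩ := hSTR V G hG (by omega)
  rw [hSPL V G τ s hsz hadj]
  have hD : 6 ≤ DD (evA (AG τ) (τ.sz + 2)) := by
    by_cases h8 : τ.sz = 6
    · have := hN8 τ h8
      rw [h8]
      exact this
    · by_cases h9 : τ.sz ≤ 176
      · exact hSML τ (by omega) h9
      · exact hLRG τ (by omega)
  have hc : (Fintype.card V : ℝ) = τ.sz + 2 := by exact_mod_cast hsz.symm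
  rw [hc]
  linarith

end Pool.Agent.MO
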