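import Pool.Agent.helper34.MO.Defs

/-! Project MO (MP_0631c5_co), block A: phases of accretive matrices (rows PHD PHE PHP PHS PHC SEG MOD LMK ACM TCH PHH EXT).
All rows are general linear algebra; other rows may be used only as hypotheses. -/

open Complex Finset

namespace Pool.Agent.MO

/-- PHD. For `F` accretive on `S`: `det = |det| e^{i phase}`, `det ≠ 0`, and all eigenvalues have positive real part.
Proof: over ℂ the charpoly splits, `det = prod of roots` (Matrix.det_eq_prod_roots_charpoly); every root is an eigenvalue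
`M v = r v`, `v ≠ 0`, so `Re (v^* M v) = Re r * |v|^2 > 0`; a complex number `r` with `Re r > 0` is `|r| exp (i arg r)`;
take the product over the multiset. -/
def PHD_stmt : Prop := ∀ (F : ℕ → ℕ → ℂ) (S : Finset ℕ), AccS F S →
  detS F S ≠ 0 ∧ detS F S = (‖detS F S‖ : ℂ) * exp (phS F S * I) ∧
  ∀ r ∈ (mS F S).charpoly.roots, 0 < r.re

/-- PHE. Small facts: empty set, one element, dependence only on the values on `S`, relabelling, subsets. -/
def PHE_stmt : Prop :=
  (∀ F : ℕ → ℕ → ℂ, phS F ∅ = 0 ∧ detS F ∅ = 1) ∧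
  (∀ (F : ℕ → ℕ → ℂ) (k : ℕ), phS F {k} = arg (F k k) ∧ detS F {k} = F k k) ∧
  (∀ (F G : ℕ → ℕ → ℂ) (S : Finset ℕ), (∀ i ∈ S, ∀ j ∈ S, F i j = G i j) →
    phS F S = phS G S ∧ detS F S = detS G S ∧ (AccS F S → AccS G S)) ∧
  (∀ (F : ℕ → ℕ → ℂ) (S : Finset ℕ) (g : ℕ → ℕ), Set.InjOn g S →
    phS (fun x y => F (g x) (g y)) S = phS F (S.image g) ∧
    detS (fun x y => F (g x) (g y)) S = detS F (S.image g) ∧
    (AccS F (S.image g) → AccS (fun x y => F (g x) (g y)) S)) ∧
  (∀ (F : ℕ → ℕ → ℂ) (S T : Finset ℕ), S ⊆ T → AccS F T → AccS F S)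

/-- PHP (the pivot lemma). If `F` is accretive on `insert k S` then the pivot `r = det_{S ∪ k} / det_S` has positive real
part and `ph (S ∪ k) = ph S + arg r`.
Proof. `M` = matrix on `S ∪ k`, path `M_s = (1-s) 1 + s M`, `s ∈ [0,1]`, accretive on `S ∪ k` and on `S`. The eigenvalues
of `M_s` are `1 - s + s μ_j`, `μ_j` the eigenvalues of `M` (charpoly of an affine function; or: use directly the polynomial
identity `det M_s = prod (1 - s + s μ_j)`), real parts positive. So `g(s) = sum arg (1-s+sμ_j)` is continuous on [0,1],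
`g(0) = 0`, `g(1) = ph`; the same for `S`: `g'`. The ratio `r(s) = det M_s / det M'_s` is continuous, with positive real part:
`1/r(s) = ((M_s)^{-1})_{kk}` (adjugate) and `Re (e_k^* N^{-1} e_k) = Re (y^* N y)` conj `> 0`, `y = N^{-1} e_k`.
`h = g - g' - arg r` is continuous on [0,1] with values in `2π ℤ` (exp (i h) = 1) and `h(0) = 0`, so `h(1) = 0`. -/
def PHP_stmt : Prop := ∀ (F : ℕ → ℕ → ℂ) (S : Finset ℕ) (k : ℕ), k ∉ S → AccS F (insert k S) →
  detS F S ≠ 0 ∧ 0 < (detS F (insert k S) / detS F S).re ∧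
  phS F (insert k S) = phS F S + arg (detS F (insert k S) / detS F S)

/-- PHS (elimination). Proof: `Re F k k > 0`: test vector e_k. Accretivity of the Schur complement: for `x` on `S` put
`x_k = -(sum_j F k j x_j)/F k k`, then `x^* (sch F k) x = z^* F z` with `z = (x, x_k)`. Determinant: Schur formula.
Phase: induction on `|S|` with PHP: for `w ∈ S`, `S = insert w S'`:
`ph F (k ∪ S) = ph F (k ∪ S') + arg (det (k ∪ S) / det (k ∪ S'))`, `ph (sch F k) S = ph (sch F k) S' + arg (det (sch) S / det (sch) S')`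
and the two ratios are equal by the determinant formula. Base `S = ∅`: one element. -/
def PHS_stmt : Prop := ∀ (F : ℕ → ℕ → ℂ) (S : Finset ℕ) (k : ℕ), k ∉ S → AccS F (insert k S) →
  0 < (F k k).re ∧ AccS (sch F k) S ∧ phS F (insert k S) = arg (F k k) + phS (sch F k) S ∧
  detS F (insert k S) = F k k * detS (sch F k) S

/-- PHC (continuity along a path). Induction on `S` with PHP; determinants are polynomials in the entries; arg is
continuous on `Re > 0`. -/
def PHC_stmt : Prop := ∀ (F : ℝ → ℕ → ℕ → ℂ) (S : Finset ℕ),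
  (∀ i ∈ S, ∀ j ∈ S, ContinuousOn (fun s => F s i j) (Set.Icc 0 1)) →
  (∀ s ∈ Set.Icc (0 : ℝ) 1, AccS (F s) S) →
  ContinuousOn (fun s => phS (F s) S) (Set.Icc 0 1)

/-- SEG (segment lemma). If the determinant is affine along the segment from `F` to `G` then the phase on the segment is
at least the minimum of the phases of the end points; if moreover `Re (det G / det F) ≥ 0` then
`ph G ≤ ph (mix s) + π/2`.
Proof: mixtures of accretive matrices are accretive. `g(s) = ph (mix s)` is continuous (PHC),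
`det (mix s) = |.| e^{i g(s)}` (PHD) `= (1-s) d0 + s d1`, never 0. `d0 = |d0| e^{i g(0)}`; `q = d1/d0` is not a real number `≤ 0`
(else the segment passes through 0), so with `δ = arg q ∈ (-π, π)` the function `b(s) = (1-s) + s q` avoids the negative
real axis, `arg b(s)` is continuous, `b(0) = 1`, and `g(s) - g(0) - arg b(s)` is continuous with values in `2πℤ`, zero at 0.
So `g(s) = g(0) + arg b(s)`. `arg b(s)` lies between `0` and `δ = arg b(1)`: if `Im q ≥ 0` then `0 ≤ arg b(s) ≤ δ`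
(`b(s)` is a convex combination of 1 and q in the closed upper half plane), symmetric if `Im q < 0`. If `Re q ≥ 0` then
`|δ| ≤ π/2`, and `g(1) - g(s) = δ - arg b(s) ≤ |δ| ≤ π/2`. -/
def SEG_stmt : Prop := ∀ (F G : ℕ → ℕ → ℂ) (S : Finset ℕ), AccS F S → AccS G S →
  (∀ s ∈ Set.Icc (0 : ℝ) 1, detS (mix F G s) S = (1 - (s : ℂ)) * detS F S + (s : ℂ) * detS G S) →
  (∀ s ∈ Set.Icc (0 : ℝ) 1, min (phS F S) (phS G S) ≤ phS (mix F G s) S) ∧
  (0 ≤ (detS G S / detS F S).re → ∀ s ∈ Set.Icc (0 : ℝ) 1, phS G S ≤ phS (mix F G s) S + Real.pi / 2)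

/-- MOD (modification of a vertex by `z = p + i q`, `p, q ≥ 0`).
Proof: `addk F k z` is accretive; `det (addk) (k ∪ S) = det F (k ∪ S) + z det F S`, so the pivot becomes `r + z`
(PHP for both). If `Im r ≥ 0` then `Im (r+z) ≥ 0`, `arg (r+z) ≥ 0`; if `Im r < 0` then `arg (r + z) ≥ arg r`. -/
def MOD_stmt : Prop := ∀ (F : ℕ → ℕ → ℂ) (S : Finset ℕ) (k : ℕ) (z : ℂ), k ∉ S → AccS F (insert k S) →
  0 ≤ z.re → 0 ≤ z.im →
  AccS (addk F k z) (insert k S) ∧
  min (phS F S) (phS F (insert k S)) ≤ phS (addk F k z) (insert k S)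

/-- LMK (deletion as a limit). Proof: pivot `r + x`, `arg (r + x) → 0` as `x → ∞`. -/
def LMK_stmt : Prop := ∀ (F : ℕ → ℕ → ℂ) (S : Finset ℕ) (k : ℕ), k ∉ S → AccS F (insert k S) →
  Filter.Tendsto (fun x : ℝ => phS (addk F k (x : ℂ)) (insert k S)) Filter.atTop (nhds (phS F S))

/-- ACM. `diag(w) - i A` is accretive: `Re x^* M x = sum w |x|^2` as `x^* A x` is real. -/
def ACM_stmt : Prop := ∀ (w : ℕ → ℝ) (A : ℕ → ℕ → ℝ) (S : Finset ℕ), (∀ x, 0 < w x) → (∀ x y, A x y = A y x) →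
  AccS (MT w A) S

/-- TCH (change of the weights). One vertex: pivot at `k` is `w k + ζ`, `ζ` does not depend on `w k`, `Re ζ ≥ 0`
(as `Re (x + ζ) > 0` for every weight `x > 0`), so the phase changes by `|arg (x + ζ) - arg (y + ζ)|`, and for `0 < x ≤ y`,
`Re ζ ≥ 0` this is at most `arctan ((y-x)/(2 sqrt (x y))) = π/2 - 2 arctan sqrt(x/y)` (arg = arctan (Im/Re); tan of the difference
`= |Im ζ| (y-x)/((x+Re ζ)(y+Re ζ) + (Im ζ)^2) ≤ (y-x)/(2 sqrt(xy))`). Then induction over the vertices of `S`. -/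
def TCH_stmt : Prop := ∀ (w w' : ℕ → ℝ) (A : ℕ → ℕ → ℝ) (S : Finset ℕ), (∀ x, 0 < w x) → (∀ x, 0 < w' x) →
  (∀ x y, A x y = A y x) →
  phS (MT w A) S - ∑ k ∈ S, chi (w k) (w' k) ≤ phS (MT w' A) S

/-- CHI. Elementary facts on `chi`. -/
def CHI_stmt : Prop := (∀ x : ℝ, 0 < x → chi x x = 0) ∧ (∀ x y : ℝ, 0 < x → 0 < y → 0 ≤ chi x y ∧ chi x y ≤ Real.pi / 2) ∧
  (∀ x y : ℝ, chi x y = chi y x) ∧
  (∀ t : ℝ, 0 < t → t < 1 → chi 1 t = Real.pi / 2 - 2 * Real.arctan (Real.sqrt t))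

/-- PHH (link with the spectrum). Proof: the matrix is `t - i A`, its charpoly roots are `t - i λ_j` (`λ_j` the real
eigenvalues of the symmetric matrix `A`), and `arg (t - i λ) = - arctan (λ/t)` for `t > 0`. -/
def PHH_stmt : Prop := ∀ (A : ℕ → ℕ → ℝ) (n : ℕ) (t : ℝ), 0 < t → (∀ x y, A x y = A y x) →
  phS (MT (fun _ => t) A) (range n) = Phi (evA A n) t

/-- EV. Evaluation of two and three element phases (by PHS, symmetric entries). -/
def EV_stmt : Prop :=
  (∀ (F : ℕ → ℕ → ℂ) (i j : ℕ), i ≠ j → F i j = F j i → AccS F {i, j} →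
    phS F {i, j} = ph2 (F i i) (F j j) (F i j)) ∧
  (∀ (F : ℕ → ℕ → ℂ) (i j k : ℕ), i ≠ j → i ≠ k → j ≠ k → F i j = F j i → F i k = F k i → F j k = F k j →
    AccS F {i, j, k} → phS F {i, j, k} = ph3 (F i i) (F j j) (F k k) (F i j) (F i k) (F j k))

end Pool.Agent.MO
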