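import Pool.Agent.helper34.MO.SpecA

/-! Project MO (MP_0631c5_co), block B: `phase ≥ 0` for weighted triangulations (the theorem RPF). Small explicit matrices.
Indices of `G5`: 0 = a, 1 = b (ports), 2 = c (apex on ab), 3 = u (ear on ac), 4 = w (ear on cb). All edges have entry `-I`.
Rows of block A may be used as hypotheses. -/

open Complex Finset

namespace Pool.Agent.MO

/-- A2P. Acc2 + Psd2 = Acc2 (Cauchy-Schwarz on the real parts); Acc2 is AccS on two indices. -/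
def A2P_stmt : Prop :=
  (∀ A B m al be mu : ℂ, Acc2 A B m → Psd2 al be mu → Acc2 (A + al) (B + be) (m + mu)) ∧
  (∀ (F : ℕ → ℕ → ℂ) (i j : ℕ), i ≠ j → F i j = F j i → (AccS F {i, j} ↔ Acc2 (F i i) (F j j) (F i j)))

/-- ACT. The Schur complement of a branch with positive weights has positive semidefinite real part. Induction:
real part of the 3x3 symmetric matrix `[[al_l, m_l, 0],[m_l, P, m_r],[0, m_r, be_r]]`, `m = mu - I`, is
`Psd(l) ⊕ Psd(r) + T e_c e_c^T`; the Schur complement of the entry `P` (`Re P ≥ T > 0`) keeps `Re ≥ 0`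
(for `y` take `y_c = -(m_l y_a + m_r y_b)/P`); real test vectors `y` suffice for Psd2... in general: `Re (conj y S y) ≥ 0` for all
complex `y` is equivalent to Psd2 as `S` is symmetric. Deleted node: clear. -/
def ACT_stmt : Prop := ∀ t : WT, PosW t → Psd2 (bd t).al (bd t).be (bd t).mu

/-- ACG. Accretivity of the structures. `Re x^* F x = [Re A |x0|^2 + Re B |x1|^2 + 2 Re m Re(conj x0 x1)] +
[Re al |x0|^2 + Re be |x2|^2 + 2 Re mu Re (conj x0 x2)] + C|x2|^2 + U|x3|^2 + W|x4|^2` (F symmetric). -/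
def ACG_stmt : Prop := ∀ (A B m al be mu : ℂ) (C U W : ℝ) (ac bc au cu bw cw : ℂ), Acc2 A B m → Psd2 al be mu →
  0 < C → 0 < U → 0 < W → ac.re = 0 → bc.re = 0 → au.re = 0 → cu.re = 0 → bw.re = 0 → cw.re = 0 →
  AccS (G5 (A + al) B (C + be) U W m (mu + ac) bc au cu bw cw) {0, 1, 2, 3, 4}

/-- EX2. Exchange for two indices: `arg A + arg (B - m^2/A) = arg B + arg (A - m^2/B)`. -/
def EX2_stmt : Prop := ∀ A B m : ℂ, Acc2 A B m → ph2 A B m = ph2 B A m ∧ 0 < (B - m ^ 2 / A).re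

/-- G2D. Deletion: let `p → ∞` or `q → ∞` in Good2 (and EX2). Good1 gives `0 ≤ ph` (`p → ∞`). -/
def G2D_stmt : Prop := (∀ (f : ℝ) (A B m : ℂ), Acc2 A B m → Good2 f A B m → Good1 f A ∧ Good1 f B ∧ 0 ≤ f) ∧
  (∀ (f : ℝ) (A : ℂ), 0 < A.re → Good1 f A → 0 ≤ f ∧ ∀ z : ℂ, 0 ≤ z.re → 0 ≤ z.im → Good1 f (A + z))

/-- G2M. Modification of the two ports (row MOD twice, with G2D, EX2). -/
def G2M_stmt : Prop := ∀ (f : ℝ) (A B m z z' : ℂ), Acc2 A B m → Good2 f A B m → 0 ≤ z.re → 0 ≤ z.im → 0 ≤ z'.re →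
  0 ≤ z'.im → Acc2 (A + z) (B + z') m ∧ Good2 f (A + z) (B + z') m

/-- S1. Pendant vertex c at b, or at a: eliminate c (PHS, pivot `C > 0`): `ph2 A (B + 1/C) m`, resp. `ph2 (A + 1/C) B m`. -/
def S1_stmt : Prop := ∀ (f : ℝ) (A B m : ℂ) (C : ℝ), Acc2 A B m → Good2 f A B m → 0 < C →
  0 ≤ f + phS (G5 A B C 1 1 m 0 (-I) 0 0 0 0) {0, 1, 2} ∧ 0 ≤ f + phS (G5 A B C 1 1 m (-I) 0 0 0 0 0) {0, 1, 2}

/-- S2. Triangle hung at a vertex: eliminate c (pivot C) and then w (pivot `W + 1/C > 0`):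
the port gets `+ (C + W + 2 I)/(C W + 1)`; use G2M. (Second part: c, u hung at a.) -/
def S2_stmt : Prop := ∀ (f : ℝ) (A B m : ℂ) (C W : ℝ), Acc2 A B m → Good2 f A B m → 0 < C → 0 < W →
  0 ≤ f + phS (G5 A B C 1 W m 0 (-I) 0 0 (-I) (-I)) {0, 1, 2, 4} ∧
  0 ≤ f + phS (G5 A B C W 1 m (-I) 0 (-I) (-I) 0 0) {0, 1, 2, 3}

/-- S3 (type (b) identity). P + c + u (u on ac): eliminate c, then u (pivots `C`, `U + 1/C` positive reals): the remaining
matrix on (a,b), with `D = U C + 1`, is `[[A + (C+U+2I)/D, m + (U+I)/D],[., B + U/D]] = mix F G s`, `s = 1/D`,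
`F = [[A+1/C, m+1/C],[., B+1/C]]` (= P + c with c eliminated), `G = [[A + C + 2I, m + I],[., B]]`; `G - F` is the rank one matrix
`-(1/C) v v^T`, `v = (1 - I C, 1)`, so the determinant is affine on the segment: SEG. `G` is good: G2M for `m + I`.
Closeness part: `det G / det F = C ζ` with `det (P+c+u) = U det (P+c) + det G`, and `Re (U + ζ) > 0` for all `U > 0` (PHP), so
`Re ζ ≥ 0`; SEG, second part. Same for w on cb (mirror image: relabel 0 <-> 1, 3 <-> 4). -/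
def S3_stmt : Prop := ∀ (f : ℝ) (A B m : ℂ) (C U : ℝ), Acc2 A B m → 0 < C → 0 < U →
  (ph2 (A + C + 2 * I) B (m + I) ≤ phS (G5 A B C U 1 m (-I) (-I) (-I) (-I) 0 0) {0, 1, 2, 3} + Real.pi / 2) ∧
  (ph2 A (B + C + 2 * I) (m + I) ≤ phS (G5 A B C 1 U m (-I) (-I) 0 0 (-I) (-I)) {0, 1, 2, 4} + Real.pi / 2) ∧
  (Good2 f A B (m + I) → 0 ≤ f + ph3 A B C m (-I) (-I) →
    0 ≤ f + phS (G5 A B C U 1 m (-I) (-I) (-I) (-I) 0 0) {0, 1, 2, 3} ∧
    0 ≤ f + phS (G5 A B C 1 U m (-I) (-I) 0 0 (-I) (-I)) {0, 1, 2, 4})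

/-- S4. Two pendants: `ph2 (A + 1/U) (B + 1/W) m`. -/
def S4_stmt : Prop := ∀ (f : ℝ) (A B m C : ℂ) (U W : ℝ), Acc2 A B m → Good2 f A B m → 0 < U → 0 < W →
  0 ≤ f + phS (G5 A B C U W m (-I) (-I) (-I) (-I) (-I) (-I)) {0, 1, 3, 4}

/-- XAB. The two one-port terms: `μ = (C + 4 I)/(4 - C)`, `θ = (2 + C + 2 I)/(2 + C)`, `0 < C ≤ 1`, `Re B > 0`:
`|arg (B + μ) - arg (B + θ)| ≤ π/2`. Proof: with `B = x + i y`: `Re ((B+μ) conj (B+θ)) = (x + C/(4-C))(x+1) + (y+4/(4-C))(y+2/(2+C))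
≥ C/(4-C) - (1/4)(4/(4-C) - 2/(2+C))^2 = C/(4-C) - 9C^2/((4-C)^2(2+C)^2) ≥ 0` since `(2+C)^2 (4-C) ≥ 12 ≥ 9 C`; both arguments are in
(-π/2, π/2), so the cosine of the difference `∈ (-π, π)` is ≥ 0.
Second part: the structure G - a (indices 1,2,3,4, weights U = W = 1) has phase `arg (B + θ)`: eliminate c, u, w
(pivots C, 1 + 1/C, ...: positive reals), then b; similarly G - b. -/
def XAB_stmt : Prop :=
  (∀ (B : ℂ) (C : ℝ), 0 < B.re → 0 < C → C ≤ 1 →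
    |arg (B + (C + 4 * I) / (4 - C)) - arg (B + (2 + C + 2 * I) / (2 + C))| ≤ Real.pi / 2) ∧
  (∀ (A B m : ℂ) (C : ℝ), Acc2 A B m → 0 < C → C ≤ 1 →
    phS (G5 A B C 1 1 m (-I) (-I) (-I) (-I) (-I) (-I)) {1, 2, 3, 4} = arg (B + (2 + C + 2 * I) / (2 + C)) ∧
    phS (G5 A B C 1 1 m (-I) (-I) (-I) (-I) (-I) (-I)) {0, 2, 3, 4} = arg (A + (2 + C + 2 * I) / (2 + C)))

/-- DID (type (a) identity, weights U = W = 1), determinants of `G5 A B C 1 1 m -I ... -I`: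
`det G = [(A+C+2I) B - (m+I)^2] + [A (B+C+2I) - (m+I)^2] + (C/2)(d{a,b,w} + d{a,b,u}) + (2 - C/2)((B+μ) + (A+μ))`,
`μ = (C+4I)/(4-C)`, `d{a,b,w} = (AB - m^2) + A`, `d{a,b,u} = (AB-m^2) + B`. (Check: `det G = (2+C) AB - (2+C) m^2 - 4 I m + 2
+ (A+B)(C+2+2I) + C + 4 I`.) -/
def DID_stmt : Prop := ∀ (A B m : ℂ) (C : ℝ), 0 < C → C ≤ 1 →
  detS (G5 A B C 1 1 m (-I) (-I) (-I) (-I) (-I) (-I)) {0, 1, 2, 3, 4} =
    ((A + C + 2 * I) * B - (m + I) ^ 2) + (A * (B + C + 2 * I) - (m + I) ^ 2)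
    + C / 2 * (detS (G5 A B C 1 1 m (-I) (-I) (-I) (-I) (-I) (-I)) {0, 1, 4}
      + detS (G5 A B C 1 1 m (-I) (-I) (-I) (-I) (-I) (-I)) {0, 1, 3})
    + (2 - C / 2) * ((B + (C + 4 * I) / (4 - C)) + (A + (C + 4 * I) / (4 - C)))

/-- S5a (core of Lemma A). Proof by contradiction: let `g = f + ph G < 0`, `G` = all five indices.
By PHP `|ph G - ph (G - v)| < π/2` for every index v; as `f + ph (G - u) ≥ 0` (S3), `g > -π/2`; and `f + ph (G - v) < π/2` for all v.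
The seven terms of DID, multiplied by `e^{i f}`, are positive multiples of `e^{i x}` with `0 ≤ x < π`:
* `Z_u = (A+C+2I)B - (m+I)^2`, `x = f + ph2 (A+C+2I) B (m+I)`: `≥ 0` by G2M, `≤ f + ph (G-w) + π/2 < π` by S3 (G - w = {0,1,2,3});
* `Z_w` similarly with G - u;
* `d{a,b,w}`: `x = f + ph{0,1,4} ≥ 0` (S1 type: eliminate w), and within π/2 of `f + ph (G - c)`, `G - c = {0,1,3,4}` (PHP); same for `d{a,b,u}`;
* `B + μ`: `x = f + arg (B+μ) ≥ 0` by G2D (Good1 f B and modification), and `≤ f + arg (B+θ) + π/2 = f + ph (G - a) + π/2 < π` (XAB); same for `A + μ`.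
So `Im (e^{if} det G) ≥ 0`, but `e^{if} det G = |det G| e^{i g}`, `-π/2 < g < 0`: contradiction. -/
def S5a_stmt : Prop := ∀ (f : ℝ) (A B m : ℂ) (C : ℝ), Acc2 A B m → Good2 f A B m → Good2 f A B (m + I) →
  0 < C → C ≤ 1 → 0 ≤ f + ph3 A B C m (-I) (-I) →
  0 ≤ f + phS (G5 A B C 1 1 m (-I) (-I) (-I) (-I) (-I) (-I)) {0, 1, 2, 3, 4}

/-- S5. Reduction of the weights by MOD (`min (ph (G - v)) (ph G(lower weight)) ≤ ph G`): `U → 1` (G - u: S3), `W → 1` (G - w: S3),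
`C → a` (G - c: S4). -/
def S5_stmt : Prop := ∀ (f : ℝ) (A B m : ℂ) (a C U W : ℝ), Acc2 A B m → Good2 f A B m → Good2 f A B (m + I) →
  0 < a → a ≤ 1 → Good3 f A B m a → a ≤ C → 1 ≤ U → 1 ≤ W →
  0 ≤ f + phS (G5 A B C U W m (-I) (-I) (-I) (-I) (-I) (-I)) {0, 1, 2, 3, 4}

/-- N1. Environment at (a, c), b eliminated. Acc2: Schur complement (PHS). Good2: it is Good3 (order b, a, c instead of
a, b, c: EV). Good2 with the edge ac deleted: pendant c at b (S1). Good3: S3. -/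
def N1_stmt : Prop := ∀ (s : St) (p q T a : ℝ) (lt' : WT), Acc2 s.A s.B s.m → Good2 s.ph s.A s.B s.m →
  Good2 s.ph s.A s.B (s.m + I) → Good3 s.ph s.A s.B s.m a → 0 < a → 0 ≤ p → 0 ≤ q → a ≤ T →
  (∀ x, rootL lt' = some x → 0 < x) → Ok (s1 s p q T) lt'

/-- N2. The same with the edge cb deleted: pendant c at a (S1), isolated c, triangle hung at a (S2). -/
def N2_stmt : Prop := ∀ (s : St) (p q T : ℝ) (lt' : WT), Acc2 s.A s.B s.m → Good2 s.ph s.A s.B s.m →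
  0 < T → 0 ≤ p → 0 ≤ q → (∀ x, rootL lt' = some x → 0 < x) → Ok (s1e s p q T) lt'

/-- N3. With the ear w on cb present (weight W), b and w eliminated: Good2: S3 (P + c + w). If lt' is live (label 1, `W ≥ 1`,
`a ≤ 1`): edge ac deleted: triangle (c, w) hung at b (S2); Good3: S5. -/
def N3_stmt : Prop := ∀ (s : St) (p q T W a : ℝ) (lt' : WT), Acc2 s.A s.B s.m → Good2 s.ph s.A s.B s.m →
  Good2 s.ph s.A s.B (s.m + I) → Good3 s.ph s.A s.B s.m a → 0 < a → 0 ≤ p → 0 ≤ q → a ≤ T → 0 < W →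
  (rootL lt' = none ∨ (rootL lt' = some 1 ∧ 1 ≤ W ∧ a ≤ 1)) → Ok (s1w s p q T W) lt'

/-- N4. Exchange identities: the same structure on {a, b, c} (or {a, b, c, w}) with the branch L attached at (a, c),
eliminated in two orders (PHS / EV / EX2 on `G5 (A+p+al) (B+q) (T+be) . W m (mu - I) bc . . bw cw`). -/
def N4_stmt : Prop := ∀ (s : St) (L : BD) (p q T : ℝ), Acc2 s.A s.B s.m → Psd2 L.al L.be L.mu → 0 ≤ p → 0 ≤ q → 0 < T →
  Acc2 (s2 s L p q T).A (s2 s L p q T).B (s2 s L p q T).m ∧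
  Acc2 (s2 s L p q T).A (s2 s L p q T).B ((s2 s L p q T).m + I) ∧
  ((s1 s p q T).ph + L.psi + ph2 ((s1 s p q T).A + L.al) ((s1 s p q T).B + L.be) ((s1 s p q T).m + L.mu) =
    (s2 s L p q T).ph + ph2 (s2 s L p q T).A (s2 s L p q T).B (s2 s L p q T).m) ∧
  ((s1e s p q T).ph + L.psi + ph2 ((s1e s p q T).A + L.al) ((s1e s p q T).B + L.be) ((s1e s p q T).m + L.mu) =
    (s2 s L p q T).ph + ph2 (s2 s L p q T).A (s2 s L p q T).B ((s2 s L p q T).m + I)) ∧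
  (∀ W : ℝ, 0 < W →
    (s1w s p q T W).ph + L.psi + ph2 ((s1w s p q T W).A + L.al) ((s1w s p q T W).B + L.be) ((s1w s p q T W).m + L.mu) =
    (s2 s L p q T).ph + ph3 (s2 s L p q T).A (s2 s L p q T).B W (s2 s L p q T).m (-I) (-I))

/-- N5. Exchange identity: both branches attached; a eliminated first, or c eliminated first. -/
def N5_stmt : Prop := ∀ (s : St) (L R : BD) (T : ℝ), Acc2 s.A s.B s.m → Psd2 L.al L.be L.mu → Psd2 R.al R.be R.mu → 0 < T →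
  (s2 s L 0 0 T).ph + R.psi + ph2 ((s2 s L 0 0 T).A + R.al) ((s2 s L 0 0 T).B + R.be) ((s2 s L 0 0 T).m + R.mu) =
  s.ph + (comb T L R).psi + ph2 (s.A + (comb T L R).al) (s.B + (comb T L R).be) (s.m + (comb T L R).mu)

/-- NODE (induction step, both ports and the apex alive). From IH(l) with the environments s1 (N1), s1e (N2), s1w (N3) and N4 the
environment s2 at (c, b) satisfies Ok for r: `Good2 s2`: increments `T + p'`, `q + q'`; edge cb deleted: s1e; Good3 with the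
label y of r: `W ≥ y`: s1w; if l is live then by ReqL its label and y are 1. Then IH(r) and N5. If r is not live (e or deleted
root) only `Good2 s2` is needed; if l is not live N3 is used with `rootL = none`. -/
def NODE_stmt : Prop := ∀ (l r l' r' : WT) (a T : ℝ), PosW l' → PosW r' → a ≤ T →
  ReqL true true (.nd (some a) l r) → (∀ x, rootL l = some x → 0 < x) →
  (∀ s, Ok s l → 0 ≤ tot s l') → (∀ s, Ok s r → 0 ≤ tot s r') →
  ∀ s, Ok s (.nd (some a) l r) → 0 ≤ tot s (.nd (some T) l' r')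

/-- VA. c attached to the single vertex a (or b): pendant, isolated vertex, triangle. -/
def VA_stmt : Prop := ∀ (f : ℝ) (A : ℂ) (T : ℝ) (lt' : WT), 0 < A.re → Good1 f A → 0 < T →
  (∀ x, rootL lt' = some x → 0 < x) → Ok ⟨f, A, T, -I⟩ lt' ∧ Ok ⟨f, T, A, -I⟩ lt'

/-- claims for the four states of the ports -/
def C2 (lt t : WT) : Prop := ∀ s, Ok s lt → 0 ≤ tot s t
def C1a (t : WT) : Prop := ∀ (f : ℝ) (A : ℂ), 0 < A.re → Good1 f A → 0 ≤ f + (bd t).psi + arg (A + (bd t).al)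
def C1b (t : WT) : Prop := ∀ (f : ℝ) (A : ℂ), 0 < A.re → Good1 f A → 0 ≤ f + (bd t).psi + arg (A + (bd t).be)
def C0 (t : WT) : Prop := 0 ≤ (bd t).psi

/-- NODA. b deleted, c alive. `s = ⟨f, A + p, T', -I⟩` (VA), C2 for l: `0 ≤ f + ψ_l + ph2 (A+p+al_l) (T'+be_l) (mu_l - I)` for all
`T' ≥ T`; so with `f' = f + ψ_l + arg (A + al_l)`, `C' = T + be_l - (mu_l - I)^2/(A + al_l)`: Good1 f' C'; C1a for r; then exchange
(EX2 for `A + al_l`, `P`, `mu_l - I`). NODB: mirror image (first r with ports (c,b), then l with C1b). NOD0: `C1b l` with the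
vertex environment `(0, T')`, then `C1a r`. -/
def NODV_stmt : Prop := ∀ (l r l' r' : WT) (T : ℝ), PosW l' → PosW r' → 0 < T →
  (∀ x, rootL l = some x → 0 < x) → (∀ x, rootL r = some x → 0 < x) →
  (C2 l l' → C1a r' → C1a (.nd (some T) l' r')) ∧ (C1b l' → C2 r r' → C1b (.nd (some T) l' r')) ∧
  (C1b l' → C1a r' → C0 (.nd (some T) l' r'))

/-- DELN. Deleted apex: l hangs at a, r hangs at b. For C2: vertex environment at a: `(f + arg B, A - m^2/B)` is Good1 (EX2), C1a l;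
then `f + ψ_l + ph2 (A + al_l) (B + q) m ≥ 0` for all q ≥ 0, the vertex environment at b is Good1, C1b r. The others are immediate. -/
def DELN_stmt : Prop := ∀ (l r l' r' : WT), PosW l' → PosW r' →
  (C1a l' → C1b r' → C2 (.nd none l r) (.nd none l' r')) ∧ (C1a l' → C0 r' → C1a (.nd none l' r')) ∧
  (C0 l' → C1b r' → C1b (.nd none l' r')) ∧ (C0 l' → C0 r' → C0 (.nd none l' r'))

/-- RPF (the theorem of this block; assembly of NODE, NODV, DELN by induction on lt: ReqL (true,true) gives C2, (true,false) C1a,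
(false,true) C1b, (false,false) C0; at the root: `⟨0, a, b, -I⟩` is Ok for every tree: VA with f = 0). -/
def RPF_stmt : Prop := ∀ (lt t : WT) (a b : Option ℝ), PosW t → Dom lt t → ReqL a.isSome b.isSome lt →
  (∀ x, a = some x → 0 < x) → (∀ x, b = some x → 0 < x) → 0 ≤ phiW a b t

end Pool.Agent.MO
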