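import Pool.Agent.helper34.MO.SpecB

/-! Project MO (MP_0631c5_co), block C: link between the matrix of the triangulation and the tree recursion, limits, the bound for
`t < 1`, the sector bound, triangle dominance for `t ≥ 10`. -/

open Complex Finset

namespace Pool.Agent.MO

/-- ATS. Elementary properties of `AT` and `AG`: symmetric, entries 0 or 1, zero diagonal, support in the interval, row structure. -/
def ATS_stmt : Prop :=
  (∀ (t : Tr) (i x y : ℕ), AT t i x y = AT t i y x ∧ (AT t i x y = 0 ∨ AT t i x y = 1) ∧ AT t i x x = 0 ∧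
    (AT t i x y ≠ 0 → i ≤ x ∧ x ≤ i + t.sz + 1 ∧ i ≤ y ∧ y ≤ i + t.sz + 1) ∧
    AT t i i (i + t.sz + 1) = 0) ∧
  (∀ (t : Tr) (x y : ℕ), AG t x y = AG t y x ∧ (AG t x y = 0 ∨ AG t x y = 1) ∧ AG t x x = 0 ∧
    (AG t x y ≠ 0 → x ≤ t.sz + 1 ∧ y ≤ t.sz + 1))

/-- LNK (the link). Proof: by induction on the tree one shows more generally: for `i`, `j = i + sz + 1`, a finite set `O` with
`i, j ∈ O`, `O ∩ (i,j) = ∅`, and `E` accretive on `O`, for the matrix `F` on `O ∪ (i,j)` given by `F x y = E x y` if `x, y ∈ O` and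
`F x y = MT w (AT τ i) x y` otherwise: `F` is accretive and `ph F (O ∪ (i,j)) = ψ + ph E' O`, where `E'` is `E` with `al` added at (i,i),
`be` at (j,j), `mu` at (i,j), (j,i) (`⟨ψ, al, be, mu⟩ = bd (wt w τ i)`). Node `nd l r`, `k = i + l.sz + 1`: apply the claim for r at (k, j) with
`O ∪ {k} ∪ (i,k)`, then for l at (i,k) with `O ∪ {k}`, then eliminate k (PHS): the Schur complement of k is exactly `comb`.
Finally `O = {0, n-1}`, `E = MT w (edge)`, EV. (Determinants only + continuity would do as well.) -/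
def LNK_stmt : Prop := ∀ (t : Tr) (w : ℕ → ℝ), (∀ x, 0 < w x) →
  phS (MT w (AG t)) (range (t.sz + 2)) = phiW (some (w 0)) (some (w (t.sz + 1))) (wt w t 0)

/-- LKU. Uniform weights: `phiW` is the phase function of the spectrum (LNK + PHH). -/
def LKU_stmt : Prop := ∀ (t : Tr) (x : ℝ), 0 < x →
  Phi (evA (AG t) (t.sz + 2)) x = phiW (some x) (some x) (uni x t)

/-- distance of two full weighted trees of the same shape -/
noncomputable def wdist : WT → WT → ℝ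
  | .nd (some a) l r, .nd (some b) l' r' => chi a b + wdist l l' + wdist r r'
  | _, _ => 0

def SameF : WT → WT → Prop
  | .e, .e => True
  | .nd (some _) l r, .nd (some _) l' r' => SameF l l' ∧ SameF r r'
  | _, _ => False

/-- TCW. Change of weights for trees: write both trees as `wt w τ 0`, `wt w' τ 0` (w, w' positive, `w 0 = a`, `w (n-1) = b` etc.),
LNK and TCH; the sum of `chi` over `range n` splits over the tree. -/
def TCW_stmt : Prop := ∀ (t t' : WT) (a b a' b' : ℝ), SameF t t' → PosW t → PosW t' → 0 < a → 0 < b → 0 < a' → 0 < b' →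
  phiW (some a) (some b) t - chi a a' - chi b b' - wdist t t' ≤ phiW (some a') (some b') t'

/-- LIM. Deletion as a limit. Induction: the four data of `bd (fill R t)` converge to those of `bd t` as `R → ∞`: live node:
the pivots converge to the pivot, real part `≥ T > 0` (ACT), arg continuous there; deleted node: pivot `R + be + al`, `1/P → 0`,
`arg P → 0`. Ports in the same way. -/
def LIM_stmt : Prop := ∀ (t : WT) (a b : Option ℝ), PosW t → (∀ x, a = some x → 0 < x) → (∀ x, b = some x → 0 < x) →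
  Filter.Tendsto (fun R : ℝ => phiW (some (a.getD R)) (some (b.getD R)) (fill R t)) Filter.atTop (nhds (phiW a b t))

/-- LAB. The label trees satisfy the requirement (for `ReqL` of a node with two live children and live ports: then `lossy` is true). -/
def LAB_stmt : Prop := ∀ (t : ℝ) (τ : Tr) (ma mb : ℕ) (x : Bool), 0 < t → t ≤ 1 →
  ReqL (decide (ma < 13)) (decide (mb < 13)) (lab t τ ma mb x) ∧ PosW (lab t τ ma mb x) ∧
  Dom (lab t τ ma mb x) (lab t τ ma mb x) ∧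
  (∀ R : ℝ, 0 < R → SameF (fill R (lab t τ ma mb x)) (uni t τ) ∧ PosW (fill R (lab t τ ma mb x)) ∧ PosW (uni t τ) ∧
    wdist (fill R (lab t τ ma mb x)) (uni t τ) ≤ hc τ * (Real.pi / 2) + xc τ ma mb x * (Real.pi / 2 - 2 * Real.arctan (Real.sqrt t)))

/-- LT1 (t < 1): RPF for the labels `lab t τ (ls) (rs+1) false`, ports deleted iff their count is `≥ 13` (else weight t), LIM, TCW
(`chi R t ≤ π/2`), LAB. -/
def LT1_stmt : Prop := ∀ (τ : Tr) (t : ℝ), 0 < t → t < 1 →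
  -(hT τ : ℝ) * (Real.pi / 2) - (xc τ τ.ls (τ.rs + 1) false : ℝ) * (Real.pi / 2 - 2 * Real.arctan (Real.sqrt t))
    ≤ phiW (some t) (some t) (uni t τ)

/-- GE1 (t ≥ 1): RPF with all labels 1 and all weights t. -/
def GE1_stmt : Prop := ∀ (τ : Tr) (t : ℝ), 1 ≤ t → 0 ≤ phiW (some t) (some t) (uni t τ)

/-- SEC (sector bound, in the form needed). For uniform weights t: `S = [[al, mu],[mu, be]]`, `Sa = al ya + mu yb`, `Sb = mu ya + be yb`.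
Induction. Node: `yc := -(m_l ya + m_r yb)/P`, `m = mu - I`. Then `Sa = (S_l)_a(ya,yc) - I yc`, `Sb = (S_r)_b(yc,yb) - I yc`, and
`(S_l)_c + (S_r)_c - I ya - I yb + t yc = 0`. So `R = R_l + R_r + t |yc|^2` and for signs `ea, eb, ec`:
`ea Qa + eb Qb = (ea Q_la + ec Q_lc) + (ec Q_rc + eb Q_rb) - (ea + ec) Re (conj ya yc) - (ec + eb) Re (conj yc yb)`.
First claim (ea = eb = 1): take ec = -1, use the second claim for l (error |yc|^2) and the third for r (error |yc|^2): total `2|yc|^2 = (2/t) t |yc|^2`.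
Second claim (ea = 1, eb = -1, error |yb|^2): ec = -1: second claim for l (|yc|^2), first for r, and `2|Re conj yc yb| ≤ |yc|^2 + |yb|^2`.
Third claim: mirror image (ec = ea). -/
def SEC_stmt : Prop := ∀ (t : ℝ) (τ : Tr) (ya yb : ℂ), 0 < t →
  let d := bd (uni t τ)
  let Sa := d.al * ya + d.mu * yb
  let Sb := d.mu * ya + d.be * yb
  let R := ((starRingEnd ℂ) ya * Sa + (starRingEnd ℂ) yb * Sb).re
  let Qa := ((starRingEnd ℂ) ya * Sa).im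
  let Qb := ((starRingEnd ℂ) yb * Sb).im
  |Qa + Qb| ≤ 2 / t * R ∧ |Qa - Qb| ≤ 2 / t * R + ‖yb‖ ^ 2 ∧ |Qa - Qb| ≤ 2 / t * R + ‖ya‖ ^ 2

/-- SCP (pivots). From SEC: `be_l` (y = (0,1)): `|Im be| ≤ (2/t) Re be + 1`; `al` (y = (1,0)): `|Im al| ≤ (2/t) Re al + 1`; sum for the
pivot of a node. Root: `Pa = t + al`; `Pb = t + be - (mu - I)^2/Pa`: SEC (third claim) with `yb = 1`, `ya = -(mu - I)/Pa`:
`Im Pb = Qb - Qa` and `Re Pb = R + t |ya|^2 + t`. -/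
def SCP_stmt : Prop := ∀ (t : ℝ) (l r : Tr), 0 < t →
  (let P := pv t (bd (uni t l)) (bd (uni t r)); t ≤ P.re ∧ |P.im| ≤ 2 / t * P.re) ∧
  (let P : ℂ := t + (bd (uni t l)).al; t ≤ P.re ∧ |P.im| ≤ 2 / t * P.re) ∧
  (let P : ℂ := t + (bd (uni t l)).be - ((bd (uni t l)).mu - I) ^ 2 / (t + (bd (uni t l)).al);
    t ≤ P.re ∧ |P.im| ≤ 2 / t * P.re)

/-- the region for `mu` -/
def Reg (m : ℂ) : Prop := 0 ≤ m.re ∧ -0.0206 ≤ m.im ∧ m.im ≤ 0.0416 ∧ ‖m‖ ≤ 0.1053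

/-- INV0. One step of the invariant region. `k = 1 + I m`, `(m_l - I)(m_r - I) = - k_l k_r`, so `mu = k_l k_r / P`. With
`k_l k_r = x + I y`: `x = (1-Im m_l)(1-Im m_r) - Re m_l Re m_r ∈ [0.9074, 1.0417]`, `y = Re m_l (1-Im m_r) + Re m_r (1 - Im m_l) ∈ [0, 0.21495]`,
`1/P = ρ (cos θ - I sin θ)`, `ρ ≤ 1/10`, `|tan θ| ≤ 0.2` (`|sin θ| ≤ 0.19612`, `cos θ ≥ 0.98058`):
`Re mu = ρ (x cos θ + y sin θ) ≥ 0`, `Im mu = ρ (y cos θ - x sin θ) ∈ [-0.0206, 0.0416]`, `|mu| = |k_l||k_r| ρ ≤ 0.1 (1.0206^2 + 0.1053^2) ≤ 0.1053`.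
Also `|k|^2 ≤ 1.0527`. -/
def INV0_stmt : Prop := ∀ (t : ℝ) (P ml mr : ℂ), 10 ≤ t → t ≤ P.re → |P.im| ≤ 2 / t * P.re → Reg ml → Reg mr →
  Reg (-((ml - I) * (mr - I)) / P) ∧ ‖(ml - I) ^ 2 / P‖ ≤ 1.053 / t ∧ ‖(mr - I) ^ 2 / P‖ ≤ 1.053 / t

/-- INV. For `t ≥ 10`: `mu` in the region, `|al| ≤ 1.053 ls / t`, `|be| ≤ 1.053 rs / t` (induction with INV0 and SCP). -/
def INV_stmt : Prop := ∀ (t : ℝ) (τ : Tr), 10 ≤ t → Reg (bd (uni t τ)).mu ∧ ‖(bd (uni t τ)).al‖ ≤ 1.053 * τ.ls / t ∧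
  ‖(bd (uni t τ)).be‖ ≤ 1.053 * τ.rs / t

/-- LOC (local inequality). `θ = arg P`, `ρ = 1/|P|`, `s = sin θ = Im P/|P|`, `c = cos θ`, `k_l = 1 + I ml`, `k = 1 + I mu`,
`mu = k_l k_r/P`. `Im (k_l^2/P) = ρ (c Im k_l^2 - s Re k_l^2)`. So the left side is
`[θ - s ρ (wa Re k_l^2 + wb Re k_r^2)] + ρ c (wa Im k_l^2 + wb Im k_r^2) + om Im k^2`. `Im k^2 = 2 Re mu (1 - Im mu)`,
`Re k_l^2 ∈ [0.907, 1.0417]`.
Case `s ≥ 0`: `θ ≥ s`; `ε = ρ (wa Re k_l^2 + wb Re k_r^2) ≤ 0.021`; `wc := ρ (1 - ε)`. `Re mu ≥ ρ x c ≥ 0.88982 ρ`, `Im mu ≤ ρ y c ≤ 0.0215`: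
`om Im k^2 ≥ 2 * 0.8706 om ρ ≥ 2 * 0.87 om ρ`.
Case `s < 0`: `θ ≥ 1.0066 s` (as `|tan θ| ≤ 0.2`), `wc := 1.0066 ρ`; `om Im k^2 ≥ 2 ρ om (0.8706 - 0.3031 |s|)`; the loss
`≤ 0.61 ρ |s| om ≤ 0.061 ρ |s| max(wa,wb)` is smaller than the gain `|s| ρ (wa Re k_l^2 + wb Re k_r^2) ≥ 0.907 ρ |s| max (wa, wb)`. -/
def LOC_stmt : Prop := ∀ (t : ℝ) (P ml mr : ℂ) (wa wb om : ℝ), 10 ≤ t → t ≤ P.re → |P.im| ≤ 2 / t * P.re →
  Reg ml → Reg mr → 0 ≤ wa → wa ≤ 1.0066 / t → 0 ≤ wb → wb ≤ 1.0066 / t → 0 ≤ om → om ≤ 1 / t * max wa wb →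
  ∃ wc : ℝ, 0.979 / ‖P‖ ≤ wc ∧ wc ≤ 1.0066 / t ∧
    wc * P.im + wa * (P.re / ‖P‖ ^ 2) * ((1 + I * ml) ^ 2).im + wb * (P.re / ‖P‖ ^ 2) * ((1 + I * mr) ^ 2).im
      + 2 * 0.87 * om / ‖P‖
    ≤ arg P + wa * ((1 + I * ml) ^ 2 / P).im + wb * ((1 + I * mr) ^ 2 / P).im
      + om * ((1 + I * (-((ml - I) * (mr - I)) / P)) ^ 2).im

/-- TDI (triangle dominance, inductive form). Induction on τ. Node: LOC with `ml = mu_l`, `mr = mu_r`, `P` the pivot (SCP, INV).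
IH for l with `(ma, m)`, `wa`, `wc`, `om_l = wa P.re/|P|^2`; for r with `(m, mb)`, `wc`, `wb`, `om_r = wb P.re/|P|^2`. `1/|P| ≥ iT t m`
(INV: `|P| ≤ t + 1.053 m/t`), `P.re/|P| ≥ 0.98058`, `P.re/|P|^2 ≤ 1/t`, `0.979 * 0.98058 ≥ 0.9599`, `0.87 * 0.9599 ≥ 0.83`. -/
def TDI_stmt : Prop := ∀ (t : ℝ) (τ : Tr) (ma mb : ℕ) (wa wb om : ℝ), 10 ≤ t →
  0.979 * iT t ma ≤ wa → wa ≤ 1.0066 / t → 0.979 * iT t mb ≤ wb → wb ≤ 1.0066 / t →
  0.9599 * iT t ma * iT t mb ≤ om → om ≤ 1 / t * max wa wb →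
  0.83 * ZT t τ ma mb ≤ (bd (uni t τ)).psi + wa * (bd (uni t τ)).al.im + wb * (bd (uni t τ)).be.im
    + om * ((1 + I * (bd (uni t τ)).mu) ^ 2).im

/-- TDF (triangle dominance). `phiW = ψ + arg Pa + arg Pb`, `Pa = t + al`, `Pb = t + be + k^2/Pa`. As in LOC: `arg Pb ≥ wb Im Pb`
with `wb = 1/|Pb|` or `1.0066/|Pb|` (sign of Im Pb), `Im Pb = Im be + ρa (ca Im k^2 - sa Re k^2)`, `arg Pa - wb ρa sa Re k^2 ≥ wa Im al` with
`wa ∈ [0.979 ρa, 1.0066/t]`; `om = wb ρa ca`; then TDI with `ma = ls`, `mb = rs + 1`. -/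
def TDF_stmt : Prop := ∀ (t : ℝ) (τ : Tr), 10 ≤ t →
  0.83 * ZT t τ τ.ls (τ.rs + 1) ≤ phiW (some t) (some t) (uni t τ)

end Pool.Agent.MO
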