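import Pool.Agent.helper34.MO.SpecC

/-! Project MO (MP_0631c5_co), block D: integrals, counting (large n), traces, eigenvalue bound, structure of maximal outerplanar
graphs, assembly. -/

open Finset

namespace Pool.Agent.MO

/-- INTF. `Σ λ|λ| = lim (4/π) ∫_0^R t Φ(t) dt` if `Σ λ = 0`. For one `λ ≠ 0`: antiderivative of `t arctan (λ/t)` is
`(1/2)[t^2 arctan (λ/t) + λ t - λ^2 arctan (t/λ)]`, so `∫_0^R (λ - t arctan (λ/t)) dt = (1/2)[λ R - R^2 arctan (λ/R)] + (1/2) λ^2 arctan (R/λ)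
→ (π/4) λ |λ|`; sum over `λ` (the terms `λ R` cancel). -/
def INTF_stmt : Prop := ∀ L : Multiset ℝ, L.sum = 0 →
  Filter.Tendsto (fun R : ℝ => 4 / Real.pi * ∫ t in (0 : ℝ)..R, t * Phi L t) Filter.atTop (nhds (DD L))

/-- PIT. `t Φ(t)` is integrable on bounded intervals (continuous on (0,∞), bounded near 0). -/
def PIT_stmt : Prop := ∀ (L : Multiset ℝ) (a b : ℝ), 0 ≤ a → a ≤ b →
  IntervalIntegrable (fun t => t * Phi L t) MeasureTheory.volume a b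

/-- IN1. `∫_0^1 t (π/2 - 2 arctan sqrt t) dt = π/4 - 2/3` (antiderivative of `t arctan sqrt t`:
`(t^2 - 1)/2 * arctan (sqrt t) - t sqrt t/6 + sqrt t/2`; check by differentiation; continuous on [0,1]). -/
def IN1_stmt : Prop := (∫ t in (0 : ℝ)..1, t * (Real.pi / 2 - 2 * Real.arctan (Real.sqrt t))) = Real.pi / 4 - 2 / 3

/-- IGG. For `μ = 1.053 m`: `t^4/(t^2+μ)^3` is the derivative of `(1/8)[(3/√μ) arctan (t/√μ) - t (5 t^2+3μ)/(t^2+μ)^2]` (μ > 0), so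
`∫_10^∞ = (1/8)[(3/√μ) arctan (√μ/10) + 10 (500+3μ)/(100+μ)^2]`, and `arctan x ≥ x/√(1+x^2)`. (μ = 0: `∫ t^{-2}`.) -/
def IGG_stmt : Prop := ∀ (m : ℕ) (ε : ℝ), 0 < ε → ∃ R0 : ℝ, 10 ≤ R0 ∧ ∀ R : ℝ, R0 ≤ R →
  1 / 8 * (3 / Real.sqrt (100 + 1.053 * m) + 10 * (500 + 3.159 * m) / (100 + 1.053 * m) ^ 2) - ε ≤
    ∫ t in (10 : ℝ)..R, t ^ 4 / (t ^ 2 + 1.053 * m) ^ 3

/-- IZT. Induction on τ with IGG: `t * 2 iT(m) iT(ma) iT(mb) = 2 t^4 / prod (t^2 + 1.053 m_i) ≥ 2 t^4/(t^2 + 1.053 max)^3`, and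
`gg m = (4/π) * 0.83 * 2 * (1/8)[...]`. -/
def IZT_stmt : Prop := ∀ (τ : Tr) (ma mb : ℕ) (ε : ℝ), 0 < ε → ∃ R0 : ℝ, 10 ≤ R0 ∧ ∀ R : ℝ, R0 ≤ R →
  GS τ ma mb - ε ≤ 4 / Real.pi * ∫ t in (10 : ℝ)..R, t * (0.83 * ZT t τ ma mb)

/-- DLO. Split `∫_0^R = ∫_0^1 + ∫_1^10 + ∫_10^R`, `(4/π) ∫_0^1 t π/2 = 1`, IN1 (`(4/π)(π/4 - 2/3) = 1 - 8/(3π)`), IZT, INTF. -/
def DLO_stmt : Prop := ∀ (L : Multiset ℝ) (τ : Tr) (ma mb : ℕ) (H X : ℝ), L.sum = 0 → 0 ≤ H → 0 ≤ X →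
  (∀ t : ℝ, 0 < t → t < 1 → -H * (Real.pi / 2) - X * (Real.pi / 2 - 2 * Real.arctan (Real.sqrt t)) ≤ Phi L t) →
  (∀ t : ℝ, 1 ≤ t → 0 ≤ Phi L t) → (∀ t : ℝ, 10 ≤ t → 0.83 * ZT t τ ma mb ≤ Phi L t) →
  GS τ ma mb - H - (1 - 8 / (3 * Real.pi)) * X ≤ DD L

/-- GGM. `gg` is positive and decreasing, and `gg 12 - (1 - 8/(3π)) ≥ 0.034` (numerically 0.0355). -/
def GGM_stmt : Prop := (∀ m : ℕ, 0 < gg m) ∧ (∀ m m' : ℕ, m ≤ m' → gg m' ≤ gg m) ∧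
  0.034 ≤ gg 12 - (1 - 8 / (3 * Real.pi)) ∧ 0 ≤ 1 - 8 / (3 * Real.pi)

/-- GGF. `f(m) = (m-2) gg m - 3 gg 13 - 1 ≥ min 6 (0.034 (m+1))` for `m ≥ 13`. Numerically f(13) = 0.4794 (needed 0.476), f(14) = 0.6436
(needed 0.51), f(75) > 6.3. `(m-2) * 3/√(100+1.053 m)` is increasing (for `m ≥ 180` it suffices alone:
`(0.83/π) * 3 (m-2)/√(100+1.053m) ≥ 7.59`); for `13 ≤ m < 180` finitely many cases (or monotonicity in blocks). -/
def GGF_stmt : Prop := ∀ m : ℕ, 13 ≤ m → min 6 (0.034 * ((m : ℝ) + 1)) ≤ ((m : ℝ) - 2) * gg m - 3 * gg 13 - 1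

/-- sum of `f (count)` over the hub nodes -/
noncomputable def hsum (f : ℕ → ℝ) : Tr → ℝ
  | .e => 0
  | .nd l r => (if 13 ≤ l.rs + r.ls then f (l.rs + r.ls) else 0) + hsum f l + hsum f r

/-- CBX. Every node with label 1 has a low triangle. -/
def CBX_stmt : Prop := ∀ (τ : Tr) (ma mb : ℕ) (x : Bool), (x = true → τ ≠ .e ∧ ma < 13 ∧ mb < 13 ∧ τ.cnt < 13) →
  xc τ ma mb x ≤ lowc τ ma mb

/-- CB2. Every triangle is low or contains a hub. Induction. -/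
def CB2_stmt : Prop := ∀ (τ : Tr) (ma mb : ℕ), (τ.sz : ℝ) ≤ lowc τ ma mb + hsum (fun m => (m : ℝ) + 1) τ +
  (if 13 ≤ ma then (τ.ls : ℝ) else 0) + (if 13 ≤ mb then (τ.rs : ℝ) else 0)

/-- CB3. Induction; `fl = true`: the older port is a (the tree parent is b), `fl = false`: the older port is b.
For the subtree l (ports a, c) `fl = true`, for r (ports c, b) `fl = false`. In the step with `fl = true` one needs
`gg(max) + [13≤mb] gg 13 ≥ [13≤m] ((k-2) gg m + (k-3) gg 13) + gg 12 [low] + [13≤ma] gg ma`, `k` = number of nonempty children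
(`1 ≤ k ≤ 2` if `13 ≤ m`), so the first bracket is `≤ - gg 13`; low: `max ≤ 12`; `13 ≤ ma` and `m, mb < 13`: `max = ma`;
otherwise `gg 13 ≥ gg ma`. -/
def CB3_stmt : Prop := ∀ (τ : Tr) (ma mb : ℕ) (fl : Bool), τ ≠ .e →
  hsum (fun m => ((m : ℝ) - 2) * gg m - 3 * gg 13) τ + gg 12 * lowc τ ma mb
    + (if 13 ≤ ma then gg ma * ((τ.ls : ℝ) - if fl then 0 else 1) else 0)
    + (if 13 ≤ mb then gg mb * ((τ.rs : ℝ) - if fl then 1 else 0) else 0)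
  ≤ GS τ ma mb + (if 13 ≤ (if fl then mb else ma) then gg 13 else 0)

/-- CBF. From CBX, CB2, CB3 (at the root `ma = ls`, `mb = rs + 1`, `fl = false`), GGM, GGF: the sum over all hubs (ports included) of
`(m-2) gg m - 3 gg 13 - 1 ≥ min 6 (0.034 (m+1))` plus `(gg 12 - (1 - 8/(3π))) lowc`; if one hub has value `≥ 6`: done; otherwise `≥ 0.034 sz`. -/
def CBF_stmt : Prop := ∀ τ : Tr, min 6 (0.034 * (τ.sz : ℝ)) ≤
  GS τ τ.ls (τ.rs + 1) - hT τ - (1 - 8 / (3 * Real.pi)) * xc τ τ.ls (τ.rs + 1) false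

/-- LRG (large n): DLO with `L = evA (AG τ) (sz+2)` (sum zero: EVK, ATS), LKU, LT1, GE1, TDF, CBF; `0.034 * 177 ≥ 6`. -/
def LRG_stmt : Prop := ∀ τ : Tr, 177 ≤ τ.sz → 6 ≤ DD (evA (AG τ) (τ.sz + 2))

/-! ## traces -/

/-- EVK. Power sums of the eigenvalues of a symmetric matrix are traces. -/
def EVK_stmt : Prop := ∀ (A : ℕ → ℕ → ℝ) (n : ℕ), (∀ x y, A x y = A y x) →
  (evA A n).card = n ∧ (evA A n).sum = ∑ i ∈ range n, A i i ∧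
  ((evA A n).map (fun x => x ^ 2)).sum = ∑ i ∈ range n, ∑ j ∈ range n, A i j ^ 2 ∧
  ((evA A n).map (fun x => x ^ 3)).sum = ∑ i ∈ range n, ∑ j ∈ range n, ∑ k ∈ range n, A i j * A j k * A k i ∧
  ((evA A n).map (fun x => x ^ 4)).sum = ∑ i ∈ range n, ∑ j ∈ range n, (∑ k ∈ range n, A i k * A k j) ^ 2

/-- TR2. Number of edges `2 sz + 1`. -/
def TR2_stmt : Prop := ∀ τ : Tr, ∑ i ∈ range (τ.sz + 2), ∑ j ∈ range (τ.sz + 2), AG τ i j ^ 2 = 4 * τ.sz + 2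

/-- TR3. Number of triangles `sz`: gluing along `k`: `A = A_l + A_r + E_{ij}`, supports of `A_l` (in `[i,k]`) and `A_r` (in `[k,j]`) meet only
in k; a closed 3-walk using the edge ij must be (i, j, k). -/
def TR3_stmt : Prop := ∀ τ : Tr, ∑ i ∈ range (τ.sz + 2), ∑ j ∈ range (τ.sz + 2), ∑ k ∈ range (τ.sz + 2),
  AG τ i j * AG τ j k * AG τ k i = 6 * τ.sz

/-- number of closed 4-walks of the branch with its port edge -/
def w4 : Tr → ℕ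
  | .e => 2
  | .nd l r => w4 l + w4 r + 4 * (l.rs + 1) * (r.ls + 1) + 8 * ((if l = .e then 0 else 1) + (if r = .e then 0 else 1))
      + 4 * (l.ls + 1 + (r.rs + 1)) + 2

/-- TR4. `tr A^4`. With `X = A_l + A_r` (glued at k) and `E = E_{ij}` (the port edge): `tr X^4 = tr A_l^4 + tr A_r^4 + 4 d_k^l d_k^r`,
`tr (X+E)^4 = tr X^4 + 4 tr(X^3 E) + 4 tr(X^2E^2) + 2 tr(XEXE) + 4 tr(X E^3) + tr E^4` with `tr(X^3E) = 2 (X^3)_{ij} = 2([l ≠ e] + [r ≠ e])`,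
`tr(X^2E^2) = d_i + d_j` (degrees in X: `l.ls + 1`, `r.rs + 1`), `tr(XEXE) = 2 X_ij^2 + 2 X_ii X_jj = 0`, `tr(XE^3) = 2 X_ij = 0`, `tr E^4 = 2`.
(Degree of the right port of l: `l.rs + 1`; of the left port of r: `r.ls + 1`.) -/
def TR4_stmt : Prop := ∀ τ : Tr, ∑ i ∈ range (τ.sz + 2), ∑ j ∈ range (τ.sz + 2),
  (∑ k ∈ range (τ.sz + 2), AG τ i k * AG τ k j) ^ 2 = w4 τ

/-- TW4. With `n = sz + 2 ≥ 3`: `w4 τ ≤ 2 n^2 + 18 n - 54` (equality for fans), by induction, using `ls + rs ≤ sz + 1` for `τ ≠ e`. -/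
def TW4_stmt : Prop := ∀ τ : Tr, 1 ≤ τ.sz → (w4 τ : ℤ) ≤ 2 * ((τ.sz : ℤ) + 2) ^ 2 + 18 * ((τ.sz : ℤ) + 2) - 54

/-- RSB. For every vertex v: `Σ_{w ~ v} d_w ≤ n - 4 + 3 d_v`. Induction on τ with the invariants (N = number of vertices of the
piece, `r(v) = Σ_{w~v} d_w - 3 d_v`): `r(v) ≤ N - 4` for all v; `r(v) ≤ N - 5` if v is adjacent to both ports; `d_i + d_j ≤ N + 1` for the two
ports (`d_i = ls + 1`, `d_j = rs + 1`). -/
def RSB_stmt : Prop := ∀ (τ : Tr), ∀ v ∈ range (τ.sz + 2),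
  ∑ w ∈ range (τ.sz + 2), AG τ v w * (∑ x ∈ range (τ.sz + 2), AG τ w x) ≤
    ((τ.sz : ℝ) + 2) - 4 + 3 * ∑ w ∈ range (τ.sz + 2), AG τ v w

/-- LAM. `λ^2 - 3|λ| ≤ n - 4` for every eigenvalue. Eigenvector x, `y = |x|`: `|λ| y ≤ A y`; `S0 = Σ y`, `S1 = Σ d y ≥ |λ| S0`,
`S2 = 1^T A^2 y = d^T A y ≥ |λ| S1`, `S2 ≤ (n-4) S0 + 3 S1` (RSB). If `|λ| ≤ 3` then `λ^2 - 3|λ| ≤ 0`... (n ≥ 4), otherwise
`(|λ|-3)|λ| S0 ≤ (|λ|-3) S1 ≤ (n-4) S0`. -/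
def LAM_stmt : Prop := ∀ τ : Tr, 2 ≤ τ.sz → ∀ x ∈ evA (AG τ) (τ.sz + 2), x ^ 2 - 3 * |x| ≤ (τ.sz : ℝ) + 2 - 4

/-- PHG. `Φ(t) ≥ 0` for `t ≥ 1` (LKU, GE1). -/
def PHG_stmt : Prop := ∀ (τ : Tr) (t : ℝ), 1 ≤ t → 0 ≤ Phi (evA (AG τ) (τ.sz + 2)) t

/-- LPG (linear programming bound). Sum the pointwise inequality over the eigenvalues. -/
def LPG_stmt : Prop := ∀ (τ : Tr) (a b c e f w1 w2 t2 : ℝ), 2 ≤ τ.sz → f ≤ 0 → 0 ≤ w1 → 0 ≤ w2 → 1 ≤ t2 →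
  (∀ x : ℝ, x ^ 2 - 3 * |x| ≤ (τ.sz : ℝ) + 2 - 4 →
    a + b * x + c * x ^ 2 + e * x ^ 3 + f * x ^ 4 - w1 * Real.arctan x - w2 * Real.arctan (x / t2) ≤ x * |x|) →
  6 ≤ a * (τ.sz + 2) + c * (4 * (τ.sz + 2) - 6) + 6 * e * τ.sz + f * (2 * ((τ.sz : ℝ) + 2) ^ 2 + 18 * (τ.sz + 2) - 54) →
  6 ≤ DD (evA (AG τ) (τ.sz + 2))

/-! ## structure and assembly -/

/-- STR. A maximal outerplanar graph on at least 2 vertices is a triangulated polygon. With a non crossing labelling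
`s : V ≃ Fin n`: consecutive vertices (and 0, n-1) are adjacent and every pair which crosses no edge is adjacent (otherwise add the edge).
Claim for `i < j` adjacent: there is a tree t with `t.sz = j - i - 1` and `Adj x y ↔ AT t i x y = 1` for all `i ≤ x, y ≤ j` except the pair
`{i,j}`: if `j = i+1`: e. Otherwise let k be the largest neighbour of i in `(i, j)` (`i+1` is one); then k is adjacent to j (no edge crosses
`kj`: an edge from `(k,j)` to the outside of [k,j] would cross ij, or go to `[i,k)`: if to i contradiction with the maximality of k, else it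
crosses ik); no edges between `(i,k)` and `(k,j]`... (crossing ik resp. kj); recursion on `[i,k]` and `[k,j]`. -/
def STR_stmt : Prop := ∀ (V : Type) [Fintype V] (G : SimpleGraph V), MaximalOuterplanar G → 2 ≤ Fintype.card V →
  ∃ (τ : Tr) (s : V ≃ Fin (Fintype.card V)), τ.sz + 2 = Fintype.card V ∧
    ∀ x y : V, (G.Adj x y → AG τ (s x) (s y) = 1) ∧ (¬ G.Adj x y → AG τ (s x) (s y) = 0)

/-- SPL. The adjacency matrix of G is a reindexing of `AG τ`; `s^+ = (DD + Σ λ^2)/2`, `Σ λ^2 = 4 sz + 2 = 4n - 6`. -/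
def SPL_stmt : Prop := ∀ (V : Type) [Fintype V] (G : SimpleGraph V) (τ : Tr) (s : V ≃ Fin (Fintype.card V)),
  τ.sz + 2 = Fintype.card V →
  (∀ x y : V, (G.Adj x y → AG τ (s x) (s y) = 1) ∧ (¬ G.Adj x y → AG τ (s x) (s y) = 0)) →
  splus G = (DD (evA (AG τ) (τ.sz + 2)) + (4 * τ.sz + 2)) / 2

/-- N8 (n = 8) -/
def N8_stmt : Prop := ∀ τ : Tr, τ.sz = 6 → 6 ≤ DD (evA (AG τ) 8)

/-- SML (9 ≤ n ≤ 178), from the certificates. -/
def SML_stmt : Prop := ∀ τ : Tr, 7 ≤ τ.sz → τ.sz ≤ 176 → 6 ≤ DD (evA (AG τ) (τ.sz + 2))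

/-- FIN, the theorem. -/
def FIN_stmt : Prop := ∀ (V : Type) [Fintype V] (G : SimpleGraph V), MaximalOuterplanar G → 8 ≤ Fintype.card V →
  2 * (Fintype.card V : ℝ) ≤ splus G

end Pool.Agent.MO
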